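import Pool.Agent.H58.K9G1.Main
import Pool.Agent.H23.K9.G2.Main
import Pool.Agent.H33.K9S
import Pool.Agent.H23.K9.Cert.Core

/-!
# The complete graph `K_9` is strongly intrinsically linked

Every spatial embedding of `K_9` (with arbitrary continuous arcs as edges) contains two
vertex-disjoint cycles whose images have linking number of absolute value at least `2`.

The definitions are in `Pool/Agent/H23/K9/Defs.lean`. The proof has three parts.

* `jobG2` (geometry): the embedding is replaced by a polygonal one in general position; the signed
  crossing numbers of the edges form a matrix whose sums over pairs of cycles are twice the linking
  numbers.
* `jobG1` (geometry): linking numbers of disjoint triangles are integers, and the sum of the ten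
  linking numbers of pairs of triangles in a `K_6` is odd (Conway-Gordon, Sachs).
* `jobS` and `no_parSys` (combinatorics): if all linking numbers were in `{-1, 0, 1}`, then for a
  cycle and a subdivision of `K_4` disjoint from it, at most two of the four face cycles could have
  odd linking number with the cycle; a certificate checked by the kernel shows that no assignment of
  parities to the pairs of disjoint triangles satisfies these conditions together with the parity
  condition for each `K_6`.
-/

namespace Pool.Agent.Results.MP_720da9_gt.StrongLinking

open Pool.Agent.H23.K9

/-- The complete graph on nine vertices is strongly intrinsically linked. -/
theorem result : StronglyIntrinsicallyLinked (⊤ : SimpleGraph (Fin 9)) :=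
  main_of_jobs Pool.Agent.H58.K9G1.jobG1 jobG2 (jobC_of Pool.Agent.H33.K9S.jobS no_parSys)

end Pool.Agent.Results.MP_720da9_gt.StrongLinking
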